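import Mathlib

/-!
# A distributionally chaotic semigroup with dense null orbits need not be f-distributionally chaotic
-/

set_option autoImplicit false

namespace Pool.Agent.Results.MP_8cea72_an.NotFChaotic

open MeasureTheory Filter Topology Set

/-- The lower `f`-density of `A`: the lower limit of `m (A ∩ [0, f t]) / t` as `t → ∞`. -/
noncomputable def lowerDensity (f : ℝ → ℝ) (A : Set ℝ) : ENNReal :=
  liminf (fun t : ℝ => volume (A ∩ Icc 0 (f t)) / ENNReal.ofReal t) atTop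

/-- The class `F`: increasing functions from `[0, ∞)` to `[1, ∞)` with
`liminf f (t) / t > 0` as `t → ∞`. -/
def IsClassF (f : ℝ → ℝ) : Prop :=
  StrictMonoOn f (Ici 0) ∧ (∀ t, 0 ≤ t → 1 ≤ f t) ∧
    0 < liminf (fun t : ℝ => ENNReal.ofReal (f t / t)) atTop

/-- `T` restricted to `[0, ∞)` is a strongly continuous semigroup. -/
def IsC0Semigroup {X : Type} [NormedAddCommGroup X] [NormedSpace ℝ X]
    (T : ℝ → X →L[ℝ] X) : Prop :=
  (∀ x, T 0 x = x) ∧ (∀ s t, 0 ≤ s → 0 ≤ t → ∀ x, T (s + t) x = T s (T t x)) ∧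
    ∀ x, ContinuousOn (fun t => T t x) (Ici 0)

/-- `f`-distributional chaos of the semigroup `T`. -/
def IsFChaotic {X : Type} [NormedAddCommGroup X] [NormedSpace ℝ X]
    (T : ℝ → X →L[ℝ] X) (f : ℝ → ℝ) : Prop :=
  ∃ S : Set X, ¬ S.Countable ∧ ∃ σ : ℝ, 0 < σ ∧ ∀ ε : ℝ, 0 < ε → ∀ x ∈ S, ∀ y ∈ S, x ≠ y →
    lowerDensity f {t | 0 ≤ t ∧ dist (T t x) (T t y) < σ} = 0 ∧
    lowerDensity f {t | 0 ≤ t ∧ ε ≤ dist (T t x) (T t y)} = 0

/-! ### The sequences -/

/-- start of the blocks -/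
noncomputable def a : ℕ → ℝ
  | 0 => 3
  | (k + 1) => 3 * ((k : ℝ) + 2) ^ 8 * a k

/-- end of the blocks -/
noncomputable def b (k : ℕ) : ℝ := 3 * ((k : ℝ) + 1) ^ 5 * a k

lemma a_succ (k : ℕ) : a (k + 1) = 3 * ((k : ℝ) + 2) ^ 8 * a k := rfl

lemma k0 (k : ℕ) : (0 : ℝ) ≤ k := Nat.cast_nonneg k

lemma a_ge (k : ℕ) : 3 * ((k : ℝ) + 1) ^ 5 ≤ a k := by
  induction k with
  | zero => norm_num [a]
  | succ k ih =>
    have h0 := k0 k
    have h1 : (1 : ℝ) ≤ a k := by
      refine le_trans ?_ ih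
      have : (1 : ℝ) ≤ ((k : ℝ) + 1) ^ 5 := one_le_pow₀ (by linarith)
      linarith
    rw [a_succ]
    push_cast
    have h2 : ((k : ℝ) + 1 + 1) ^ 5 ≤ ((k : ℝ) + 2) ^ 8 := by
      have : ((k : ℝ) + 1 + 1) = (k : ℝ) + 2 := by ring
      rw [this]
      exact pow_le_pow_right₀ (by linarith) (by norm_num)
    have h3 : (0 : ℝ) ≤ 3 * ((k : ℝ) + 2) ^ 8 := by positivity
    nlinarith

lemma a_one (k : ℕ) : 1 ≤ a k := by
  have h0 := k0 k
  have : (1 : ℝ) ≤ ((k : ℝ) + 1) ^ 5 := one_le_pow₀ (by linarith)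
  have := a_ge k
  linarith

lemma a_pos (k : ℕ) : 0 < a k := lt_of_lt_of_le one_pos (a_one k)

lemma b_pos (k : ℕ) : 0 < b k := by
  have := a_pos k
  have := k0 k
  unfold b
  positivity

lemma a_le_b (k : ℕ) : a k ≤ b k := by
  have h0 := k0 k
  have h1 : (1 : ℝ) ≤ ((k : ℝ) + 1) ^ 5 := one_le_pow₀ (by linarith)
  unfold b
  nlinarith [a_pos k]

lemma b_le_sq (k : ℕ) : b k ≤ a k ^ 2 := by
  have := a_ge k
  unfold b
  nlinarith [a_pos k]

lemma b_le_a (k : ℕ) : ((k : ℝ) + 2) * b k ≤ a (k + 1) := by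
  have h0 := k0 k
  rw [a_succ]
  unfold b
  have h1 : ((k : ℝ) + 1) ^ 5 ≤ ((k : ℝ) + 2) ^ 5 := by gcongr; norm_num
  have h2 : ((k : ℝ) + 2) ^ 5 ≤ ((k : ℝ) + 2) ^ 7 :=
    pow_le_pow_right₀ (by linarith) (by norm_num)
  have h3 : ((k : ℝ) + 2) * (3 * ((k : ℝ) + 1) ^ 5 * a k) =
      3 * (((k : ℝ) + 2) * ((k : ℝ) + 1) ^ 5) * a k := by ring
  rw [h3]
  have h4 : ((k : ℝ) + 2) * ((k : ℝ) + 1) ^ 5 ≤ ((k : ℝ) + 2) ^ 8 := by
    calc ((k : ℝ) + 2) * ((k : ℝ) + 1) ^ 5 ≤ ((k : ℝ) + 2) * ((k : ℝ) + 2) ^ 7 := by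
          gcongr
          exact h1.trans h2
      _ = _ := by ring
  have := a_pos k
  gcongr

lemma b_lt_a (k : ℕ) : 2 * b k ≤ a (k + 1) := by
  have h0 := k0 k
  have h1 := b_le_a k
  have h2 := b_pos k
  nlinarith

lemma a_mono : Monotone a := monotone_nat_of_le_succ fun k => by
  have h1 := b_lt_a k
  have h2 := a_le_b k
  have h3 := b_pos k
  linarith

lemma b_mono : Monotone b := monotone_nat_of_le_succ fun k => by
  have h1 := b_lt_a k
  have h2 := a_le_b (k + 1)
  have h3 := b_pos k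
  linarith

lemma a_ge_k (k : ℕ) : (k : ℝ) ≤ a k := by
  have h0 := k0 k
  have h1 := a_ge k
  have h2 : ((k : ℝ) + 1) ≤ ((k : ℝ) + 1) ^ 5 := le_self_pow₀ (by linarith) (by norm_num)
  linarith

lemma a_tendsto : Tendsto a atTop atTop :=
  tendsto_atTop_mono a_ge_k tendsto_natCast_atTop_atTop

lemma exists_k (m : ℕ) (N : ℝ) (hN : a m ≤ N) : ∃ k, m ≤ k ∧ a k ≤ N ∧ N < a (k + 1) := by
  classical
  have hex : ∃ k, N < a (k + 1) := by
    obtain ⟨k, hk⟩ := (a_tendsto.eventually_gt_atTop N).exists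
    exact ⟨k, hk.trans_le (a_mono (Nat.le_succ k))⟩
  have h1 := Nat.find_spec hex
  have h2 : m ≤ Nat.find hex := by
    by_contra hlt
    push Not at hlt
    have := a_mono (show Nat.find hex + 1 ≤ m by omega)
    linarith
  refine ⟨Nat.find hex, h2, ?_, h1⟩
  rcases Nat.eq_or_lt_of_le h2 with h3 | h3
  · rw [← h3]; exact hN
  · have h4 : Nat.find hex - 1 + 1 = Nat.find hex := by omega
    have h5 := Nat.find_min hex (show Nat.find hex - 1 < Nat.find hex by omega)
    rw [h4] at h5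
    exact not_lt.1 h5

/-- first coefficient -/
noncomputable def f1 (i : ℕ) (t : ℝ) : ℝ := Real.exp (-(t / (((i : ℝ) + 1) ^ 3 * a i)))

/-- second coefficient -/
noncomputable def f2 (i : ℕ) (t : ℝ) : ℝ := t / a i * f1 i t

lemma den_pos (i : ℕ) : 0 < ((i : ℝ) + 1) ^ 3 * a i := by
  have := a_pos i
  have := k0 i
  positivity

lemma den_one (i : ℕ) : 1 ≤ ((i : ℝ) + 1) ^ 3 * a i := by
  have h1 := a_one i
  have h2 : (1 : ℝ) ≤ ((i : ℝ) + 1) ^ 3 := one_le_pow₀ (by have := k0 i; linarith)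
  nlinarith

lemma f1_nonneg (i : ℕ) (t : ℝ) : 0 ≤ f1 i t := (Real.exp_pos _).le

lemma f1_le (i : ℕ) {t : ℝ} (ht : 0 ≤ t) : f1 i t ≤ 1 := by
  unfold f1
  rw [Real.exp_le_one_iff]
  have := den_pos i
  have : 0 ≤ t / (((i : ℝ) + 1) ^ 3 * a i) := by positivity
  linarith

lemma f2_nonneg (i : ℕ) {t : ℝ} (ht : 0 ≤ t) : 0 ≤ f2 i t := by
  have := a_pos i
  have := f1_nonneg i t
  unfold f2
  positivity

lemma f2_le (i : ℕ) {t : ℝ} (ht : 0 ≤ t) : f2 i t ≤ t / a i := by
  have := a_pos i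
  unfold f2
  have h1 := f1_le i ht
  have h2 : 0 ≤ t / a i := by positivity
  nlinarith

lemma f2_le_t (i : ℕ) {t : ℝ} (ht : 0 ≤ t) : f2 i t ≤ t :=
  (f2_le i ht).trans (div_le_self ht (a_one i))

lemma f2_le_one (i : ℕ) {t : ℝ} (ht : 0 ≤ t) (h : t ≤ a i ∨ b i ≤ t) : f2 i t ≤ 1 := by
  rcases h with h | h
  · refine (f2_le i ht).trans ?_
    exact div_le_one_of_le₀ h (a_pos i).le
  · set u := t / (((i : ℝ) + 1) ^ 3 * a i) with hu
    have h0 := k0 i
    have ha := a_pos i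
    have hden := den_pos i
    have hu1 : 3 * ((i : ℝ) + 1) ^ 2 ≤ u := by
      rw [hu, le_div_iff₀ hden]
      refine le_trans (le_of_eq ?_) h
      unfold b
      ring
    have hu0 : 0 < u := lt_of_lt_of_le (by positivity) hu1
    have h1 : f2 i t = ((i : ℝ) + 1) ^ 3 * (u * Real.exp (-u)) := by
      unfold f2 f1
      rw [← hu]
      have : t / a i = ((i : ℝ) + 1) ^ 3 * u := by
        rw [hu]
        field_simp
      rw [this]
      ring
    have h2 : u ^ 3 / 6 ≤ Real.exp u := by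
      have := Real.pow_div_factorial_le_exp u hu0.le 3
      simpa [Nat.factorial] using this
    have h3 : u * Real.exp (-u) ≤ 6 / u ^ 2 := by
      rw [Real.exp_neg, ← div_eq_mul_inv, div_le_div_iff₀ (Real.exp_pos u) (by positivity)]
      nlinarith
    rw [h1]
    calc ((i : ℝ) + 1) ^ 3 * (u * Real.exp (-u)) ≤ ((i : ℝ) + 1) ^ 3 * (6 / u ^ 2) := by gcongr
      _ ≤ ((i : ℝ) + 1) ^ 3 * (6 / (3 * ((i : ℝ) + 1) ^ 2) ^ 2) := by gcongr
      _ ≤ 1 := by
        rw [mul_div_assoc', div_le_one (by positivity)]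
        have : (1 : ℝ) ≤ (i : ℝ) + 1 := by linarith
        have h5 : ((i : ℝ) + 1) ^ 3 ≤ ((i : ℝ) + 1) ^ 4 :=
          pow_le_pow_right₀ this (by norm_num)
        nlinarith [pow_pos (by linarith : (0 : ℝ) < (i : ℝ) + 1) 4]

lemma f2_ge (i : ℕ) {t : ℝ} (ht : 0 ≤ t) (h : t ≤ ((i : ℝ) + 1) ^ 3 * a i) :
    t / a i * Real.exp (-1) ≤ f2 i t := by
  unfold f2 f1
  have := a_pos i
  have h1 : t / (((i : ℝ) + 1) ^ 3 * a i) ≤ 1 := div_le_one_of_le₀ h (den_pos i).le
  gcongr

lemma f1_lip (i : ℕ) {s t : ℝ} (hs : 0 ≤ s) (ht : 0 ≤ t) : |f1 i t - f1 i s| ≤ |t - s| := by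
  have hden := den_one i
  have key : ∀ x ∈ Ici (0 : ℝ), HasDerivWithinAt (fun t => f1 i t)
      (-(1 / (((i : ℝ) + 1) ^ 3 * a i)) * f1 i x) (Ici 0) x := by
    intro x _
    have h1 : HasDerivAt (fun t : ℝ => -(t / (((i : ℝ) + 1) ^ 3 * a i)))
        (-(1 / (((i : ℝ) + 1) ^ 3 * a i))) x := ((hasDerivAt_id x).div_const _).neg
    have h2 := h1.exp
    unfold f1
    refine h2.hasDerivWithinAt.congr_deriv ?_
    ring
  have := (convex_Ici (0 : ℝ)).norm_image_sub_le_of_norm_hasDerivWithin_le (C := 1) key (by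
    intro x hx
    rw [norm_mul, Real.norm_eq_abs, Real.norm_eq_abs, abs_neg, abs_of_nonneg (f1_nonneg i x),
      abs_of_pos (by positivity)]
    have h1 := f1_le i hx
    have h2 : 1 / (((i : ℝ) + 1) ^ 3 * a i) ≤ 1 := div_le_one_of_le₀ hden (by linarith)
    have h3 : 0 ≤ 1 / (((i : ℝ) + 1) ^ 3 * a i) := by positivity
    nlinarith [f1_nonneg i x]) hs ht
  simpa using this

lemma f2_lip (i : ℕ) {s t : ℝ} (hs : 0 ≤ s) (ht : 0 ≤ t) : |f2 i t - f2 i s| ≤ |t - s| := by
  have hden := den_one i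
  have hden0 := den_pos i
  have ha := a_one i
  have ha0 := a_pos i
  have key : ∀ x ∈ Ici (0 : ℝ), HasDerivWithinAt (fun t => f2 i t)
      ((1 / a i) * ((1 - x / (((i : ℝ) + 1) ^ 3 * a i)) * f1 i x)) (Ici 0) x := by
    intro x _
    have h1 : HasDerivAt (fun t : ℝ => -(t / (((i : ℝ) + 1) ^ 3 * a i)))
        (-(1 / (((i : ℝ) + 1) ^ 3 * a i))) x := ((hasDerivAt_id x).div_const _).neg
    have h2 := h1.exp
    have h3 : HasDerivAt (fun t : ℝ => t / a i) (1 / a i) x := (hasDerivAt_id x).div_const _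
    have h4 := h3.mul h2
    unfold f2 f1
    have h5 := h4.hasDerivWithinAt (s := Ici 0)
    refine h5.congr_deriv ?_
    field_simp
    ring
  have := (convex_Ici (0 : ℝ)).norm_image_sub_le_of_norm_hasDerivWithin_le (C := 1) key (by
    intro x hx
    set u := x / (((i : ℝ) + 1) ^ 3 * a i) with hu
    have hx' : 0 ≤ x := hx
    have hu0 : 0 ≤ u := by positivity
    have h1 : |(1 - u) * f1 i x| ≤ 1 := by
      have h2 : f1 i x = Real.exp (-u) := rfl
      have h3 : u + 1 ≤ Real.exp u := Real.add_one_le_exp u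
      have h4 : |1 - u| ≤ Real.exp u := by
        rw [abs_le]; constructor <;> linarith
      rw [abs_mul, h2, abs_of_pos (Real.exp_pos _), Real.exp_neg, ← div_eq_mul_inv,
        div_le_one (Real.exp_pos u)]
      exact h4
    rw [norm_mul, Real.norm_eq_abs, Real.norm_eq_abs, abs_of_pos (by positivity)]
    have h2 : 1 / a i ≤ 1 := div_le_one_of_le₀ ha ha0.le
    have h3 : 0 ≤ 1 / a i := by positivity
    nlinarith [abs_nonneg ((1 - u) * f1 i x)]) hs ht
  simpa using this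

/-! ### The space and the semigroup -/

/-- The space: square summable sequences in the plane. -/
noncomputable abbrev XX : Type := lp (fun _ : ℕ => ℝ × ℝ) 2

/-- entries of the semigroup -/
noncomputable def L (t : ℝ) (i : ℕ) (z : ℝ × ℝ) : ℝ × ℝ :=
  (f1 i t * z.1 + f2 i t * z.2, f1 i t * z.2)

lemma f1_abs (i : ℕ) (t : ℝ) : f1 i t ≤ Real.exp |t| := by
  unfold f1
  apply Real.exp_le_exp.2
  have h1 := den_one i
  have h2 : |t / (((i : ℝ) + 1) ^ 3 * a i)| ≤ |t| := by
    rw [abs_div, abs_of_pos (den_pos i)]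
    exact div_le_self (abs_nonneg t) h1
  have := neg_abs_le (t / (((i : ℝ) + 1) ^ 3 * a i))
  linarith

lemma f2_abs (i : ℕ) (t : ℝ) : |f2 i t| ≤ |t| * Real.exp |t| := by
  unfold f2
  rw [abs_mul, abs_of_nonneg (f1_nonneg i t)]
  have h1 : |t / a i| ≤ |t| := by
    rw [abs_div, abs_of_pos (a_pos i)]
    exact div_le_self (abs_nonneg t) (a_one i)
  have := f1_abs i t
  have := f1_nonneg i t
  gcongr

lemma norm_pair_le {z : ℝ × ℝ} {C : ℝ} (h1 : |z.1| ≤ C) (h2 : |z.2| ≤ C) : ‖z‖ ≤ C := by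
  rw [Prod.norm_def]
  exact max_le h1 h2

lemma L_norm_gen (p q : ℝ) (C : ℝ) (hC : |p| + |q| ≤ C) (z : ℝ × ℝ) :
    ‖(p * z.1 + q * z.2, p * z.2)‖ ≤ C * ‖z‖ := by
  have h1 : |z.1| ≤ ‖z‖ := norm_fst_le z
  have h2 : |z.2| ≤ ‖z‖ := norm_snd_le z
  have hp := abs_nonneg p
  have hq := abs_nonneg q
  have hz := norm_nonneg z
  apply norm_pair_le
  · simp only
    calc |p * z.1 + q * z.2| ≤ |p * z.1| + |q * z.2| := abs_add_le _ _
      _ = |p| * |z.1| + |q| * |z.2| := by rw [abs_mul, abs_mul]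
      _ ≤ |p| * ‖z‖ + |q| * ‖z‖ := by gcongr
      _ = (|p| + |q|) * ‖z‖ := by ring
      _ ≤ C * ‖z‖ := by gcongr
  · simp only
    rw [abs_mul]
    calc |p| * |z.2| ≤ |p| * ‖z‖ := by gcongr
      _ ≤ (|p| + |q|) * ‖z‖ := by gcongr; linarith
      _ ≤ C * ‖z‖ := by gcongr

lemma L_bound (t : ℝ) (i : ℕ) (z : ℝ × ℝ) : ‖L t i z‖ ≤ ((1 + |t|) * Real.exp |t|) * ‖z‖ := by
  refine L_norm_gen (f1 i t) (f2 i t) ((1 + |t|) * Real.exp |t|) ?_ z
  rw [abs_of_nonneg (f1_nonneg i t)]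
  have h1 := f1_abs i t
  have h2 := f2_abs i t
  nlinarith

lemma L_bound2 {t : ℝ} (ht : 0 ≤ t) (i : ℕ) (h : t ≤ a i ∨ b i ≤ t) (z : ℝ × ℝ) :
    ‖L t i z‖ ≤ 2 * ‖z‖ := by
  refine L_norm_gen (f1 i t) (f2 i t) 2 ?_ z
  rw [abs_of_nonneg (f1_nonneg i t), abs_of_nonneg (f2_nonneg i ht)]
  have h1 := f1_le i ht
  have h2 := f2_le_one i ht h
  linarith

lemma L_lip {s t : ℝ} (hs : 0 ≤ s) (ht : 0 ≤ t) (i : ℕ) (z : ℝ × ℝ) :
    ‖L t i z - L s i z‖ ≤ (2 * |t - s|) * ‖z‖ := by
  have h1 : L t i z - L s i z = ((f1 i t - f1 i s) * z.1 + (f2 i t - f2 i s) * z.2,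
      (f1 i t - f1 i s) * z.2) := by
    unfold L
    ext <;> simp <;> ring
  rw [h1]
  have h1 := f1_lip i hs ht
  have h2 := f2_lip i hs ht
  exact L_norm_gen (f1 i t - f1 i s) (f2 i t - f2 i s) (2 * |t - s|) (by linarith) z

lemma cst_abs (t : ℝ) : abs ((1 + |t|) * Real.exp |t|) = (1 + |t|) * Real.exp |t| :=
  abs_of_nonneg (by positivity)

lemma memL (t : ℝ) (x : XX) : Memℓp (fun i => L t i (x i)) 2 := by
  refine (lp.memℓp (((1 + |t|) * Real.exp |t|) • x)).mono' fun i => ?_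
  refine (L_bound t i (x i)).trans (le_of_eq ?_)
  rw [lp.coeFn_smul, Pi.smul_apply, norm_smul, Real.norm_eq_abs, cst_abs]

/-- The semigroup. -/
noncomputable def T (t : ℝ) : XX →L[ℝ] XX :=
  LinearMap.mkContinuous
    { toFun := fun x => ⟨fun i => L t i (x i), memL t x⟩
      map_add' := fun x y => by
        ext i <;> simp [L] <;> ring
      map_smul' := fun c x => by
        ext i <;> simp [L] <;> ring }
    ((1 + |t|) * Real.exp |t|) (fun x => by
      have : ‖((⟨fun i => L t i (x i), memL t x⟩ : XX))‖ ≤ ‖((1 + |t|) * Real.exp |t|) • x‖ := by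
        apply lp.norm_mono (by norm_num)
        intro i
        refine (L_bound t i (x i)).trans (le_of_eq ?_)
        rw [lp.coeFn_smul, Pi.smul_apply, norm_smul, Real.norm_eq_abs, cst_abs]
      refine this.trans (le_of_eq ?_)
      rw [norm_smul, Real.norm_eq_abs, cst_abs])

lemma T_apply (t : ℝ) (x : XX) (i : ℕ) : (T t x) i = L t i (x i) := rfl

lemma norm_le_of_pointwise (C : ℝ) (hC : 0 ≤ C) (x y : XX) (h : ∀ i, ‖y i‖ ≤ C * ‖x i‖) :
    ‖y‖ ≤ C * ‖x‖ := by
  have : ‖y‖ ≤ ‖C • x‖ := by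
    apply lp.norm_mono (by norm_num)
    intro i
    rw [lp.coeFn_smul, Pi.smul_apply, norm_smul, Real.norm_eq_abs, abs_of_nonneg hC]
    exact h i
  rwa [norm_smul, Real.norm_eq_abs, abs_of_nonneg hC] at this

lemma T_semigroup : IsC0Semigroup T := by
  refine ⟨?_, ?_, ?_⟩
  · intro x
    apply lp.ext
    funext i
    rw [T_apply]
    simp [L, f1, f2]
  · intro s t _ _ x
    apply lp.ext
    funext i
    rw [T_apply, T_apply, T_apply]
    have h1 : f1 i (s + t) = f1 i s * f1 i t := by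
      unfold f1
      rw [← Real.exp_add]
      congr 1
      ring
    have h2 : f2 i (s + t) = f1 i s * f2 i t + f2 i s * f1 i t := by
      unfold f2
      rw [h1]
      ring
    unfold L
    ext
    · simp only
      rw [h1, h2]
      ring
    · simp only
      rw [h1]
      ring
  · intro x
    have : LipschitzOnWith (Real.toNNReal (2 * ‖x‖)) (fun t => T t x) (Ici 0) := by
      apply LipschitzOnWith.of_dist_le_mul
      intro t ht s hs
      rw [dist_eq_norm, Real.coe_toNNReal _ (by positivity), Real.dist_eq]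
      have := norm_le_of_pointwise (2 * |t - s|) (by positivity) x (T t x - T s x) (fun i => by
        rw [lp.coeFn_sub, Pi.sub_apply, T_apply, T_apply]
        exact L_lip hs ht i (x i))
      linarith
    exact this.continuousOn

lemma T_gap {t : ℝ} {k : ℕ} (h1 : b k ≤ t) (h2 : t ≤ a (k + 1)) (x : XX) :
    ‖T t x‖ ≤ 2 * ‖x‖ := by
  have ht : 0 ≤ t := (b_pos k).le.trans h1
  apply norm_le_of_pointwise 2 (by norm_num)
  intro i
  rw [T_apply]
  apply L_bound2 ht
  rcases Nat.lt_or_ge k i with h | h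
  · left
    exact h2.trans (a_mono h)
  · right
    exact (b_mono h).trans h1

/-- finitely supported vectors have null orbits -/
lemma T_single (i : ℕ) (z : ℝ × ℝ) :
    Tendsto (fun t => T t (lp.single 2 i z)) atTop (𝓝 0) := by
  have h1 : ∀ t, T t (lp.single 2 i z) = lp.single 2 i (L t i z) := by
    intro t
    apply lp.ext
    funext j
    rw [T_apply]
    by_cases hj : j = i
    · subst hj
      rw [lp.single_apply_self, lp.single_apply_self]
    · have e1 : (lp.single 2 i z : XX) j = 0 :=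
        lp.single_apply_ne (E := fun _ : ℕ => ℝ × ℝ) 2 i z hj
      have e2 : (lp.single 2 i (L t i z) : XX) j = 0 :=
        lp.single_apply_ne (E := fun _ : ℕ => ℝ × ℝ) 2 i (L t i z) hj
      rw [e1, e2]
      simp [L]
  simp only [h1]
  have hden := den_pos i
  have hf1 : Tendsto (fun t => f1 i t) atTop (𝓝 0) := by
    unfold f1
    apply Real.tendsto_exp_neg_atTop_nhds_zero.comp
    exact tendsto_id.atTop_div_const hden
  have hf2 : Tendsto (fun t => f2 i t) atTop (𝓝 0) := by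
    have h2 : Tendsto (fun t : ℝ => (t / (((i : ℝ) + 1) ^ 3 * a i)) ^ 1 *
        Real.exp (-(t / (((i : ℝ) + 1) ^ 3 * a i)))) atTop (𝓝 0) :=
      (Real.tendsto_pow_mul_exp_neg_atTop_nhds_zero 1).comp (tendsto_id.atTop_div_const hden)
    have h3 := h2.const_mul (((i : ℝ) + 1) ^ 3)
    rw [mul_zero] at h3
    refine h3.congr fun t => ?_
    unfold f2 f1
    have := a_pos i
    field_simp
  have hL : Tendsto (fun t => L t i z) atTop (𝓝 0) := by
    unfold L
    have h2 : Tendsto (fun t => f1 i t * z.1 + f2 i t * z.2) atTop (𝓝 (0 * z.1 + 0 * z.2)) :=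
      (hf1.mul_const _).add (hf2.mul_const _)
    have h3 : Tendsto (fun t => f1 i t * z.2) atTop (𝓝 (0 * z.2)) := hf1.mul_const _
    have h4 := h2.prodMk_nhds h3
    rw [zero_mul, zero_mul, add_zero] at h4
    exact h4
  rw [tendsto_zero_iff_norm_tendsto_zero] at hL ⊢
  refine hL.congr fun t => ?_
  rw [lp.norm_single (by norm_num)]

/-- The vectors with null orbits. -/
noncomputable def X0 : Submodule ℝ XX := Submodule.span ℝ {x | ∃ i z, x = lp.single 2 i z}

lemma X0_null : ∀ x ∈ X0, Tendsto (fun t => T t x) atTop (𝓝 0) := by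
  intro x hx
  unfold X0 at hx
  induction hx using Submodule.span_induction with
  | mem x hx =>
    obtain ⟨i, z, rfl⟩ := hx
    exact T_single i z
  | zero => simp
  | add x y _ _ hx hy =>
    have := hx.add hy
    simpa using this
  | smul c x _ hx =>
    have := hx.const_smul c
    simpa using this

lemma X0_dense : Dense (X0 : Set XX) := by
  intro x
  have h := lp.hasSum_single (p := 2) (by norm_num) x
  apply mem_closure_of_tendsto h
  filter_upwards with s
  apply Submodule.sum_mem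
  intro i _
  exact Submodule.subset_span ⟨i, x i, rfl⟩

/-- All orbits are small along the gaps. -/
lemma gap_small (x : XX) (ε : ℝ) (hε : 0 < ε) :
    ∃ k0 : ℕ, ∀ k, k0 ≤ k → ∀ t, b k ≤ t → t ≤ a (k + 1) → ‖T t x‖ < ε := by
  obtain ⟨y, hy, hxy⟩ : ∃ y ∈ X0, ‖x - y‖ < ε / 4 := by
    have := Metric.mem_closure_iff.1 (X0_dense x) (ε / 4) (by positivity)
    obtain ⟨y, hy, h⟩ := this
    exact ⟨y, hy, by rwa [dist_eq_norm] at h⟩
  have h1 := X0_null y hy
  rw [tendsto_zero_iff_norm_tendsto_zero] at h1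
  obtain ⟨t0, ht0⟩ := eventually_atTop.1 (h1.eventually_lt_const (show (0 : ℝ) < ε / 2 by positivity))
  obtain ⟨k0, hk0⟩ := eventually_atTop.1 (a_tendsto.eventually_ge_atTop t0)
  refine ⟨k0, fun k hk t h2 h3 => ?_⟩
  have h4 : t0 ≤ t := (hk0 k hk).trans ((a_le_b k).trans h2)
  have h5 := ht0 t h4
  have h6 := T_gap h2 h3 (x - y)
  have h7 : T t x = T t (x - y) + T t y := by
    rw [map_sub]; abel
  rw [h7]
  refine (norm_add_le _ _).trans_lt ?_
  linarith

/-! ### The irregular vector -/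

lemma mem_yy : Memℓp (fun i : ℕ => (((0 : ℝ), 1 / ((i : ℝ) + 1)) : ℝ × ℝ)) 2 := by
  apply memℓp_gen
  have h1 : Summable (fun i : ℕ => (1 / ((i : ℝ) + 1)) ^ 2) := by
    have h2 : Summable (fun i : ℕ => 1 / ((i : ℝ)) ^ 2) := Real.summable_one_div_nat_pow.2 (by norm_num)
    have h3 := (summable_nat_add_iff 1).2 h2
    refine h3.congr fun i => ?_
    push_cast
    rw [div_pow, one_pow]
  refine h1.congr fun i => ?_
  have h0 := k0 i
  have h2 : ‖(((0 : ℝ), 1 / ((i : ℝ) + 1)) : ℝ × ℝ)‖ = 1 / ((i : ℝ) + 1) := by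
    rw [Prod.norm_def]
    simp only [norm_zero, Real.norm_eq_abs]
    rw [abs_of_pos (by positivity)]
    exact max_eq_right (by positivity)
  rw [h2]
  norm_num

/-- The irregular vector. -/
noncomputable def yy : XX := ⟨fun i : ℕ => (((0 : ℝ), 1 / ((i : ℝ) + 1)) : ℝ × ℝ), mem_yy⟩

lemma yy_big {t : ℝ} (i : ℕ) (h1 : ((i : ℝ) + 1) ^ 2 * a i ≤ t)
    (h2 : t ≤ ((i : ℝ) + 1) ^ 3 * a i) : ((i : ℝ) + 1) * Real.exp (-1) ≤ ‖T t yy‖ := by
  have h0 := k0 i
  have ha := a_pos i
  have ht : 0 ≤ t := le_trans (by positivity) h1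
  have h3 : ‖(T t yy) i‖ ≤ ‖T t yy‖ := lp.norm_apply_le_norm (by norm_num) _ i
  refine le_trans ?_ h3
  have h4 : (T t yy) i = (f1 i t * 0 + f2 i t * (1 / ((i : ℝ) + 1)),
      f1 i t * (1 / ((i : ℝ) + 1))) := rfl
  rw [h4]
  refine le_trans ?_ (norm_fst_le _)
  simp only
  have h5 := f2_ge i ht h2
  have h6 := f2_nonneg i ht
  rw [mul_zero, zero_add, Real.norm_eq_abs, abs_of_nonneg (by positivity)]
  have h7 : ((i : ℝ) + 1) ^ 2 ≤ t / a i := by
    rw [le_div_iff₀ ha]; exact h1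
  calc ((i : ℝ) + 1) * Real.exp (-1) = (((i : ℝ) + 1) ^ 2 * Real.exp (-1)) * (1 / ((i : ℝ) + 1)) := by
        field_simp
    _ ≤ (t / a i * Real.exp (-1)) * (1 / ((i : ℝ) + 1)) := by gcongr
    _ ≤ f2 i t * (1 / ((i : ℝ) + 1)) := by gcongr

/-! ### Densities -/

/-- criterion for lower density zero -/
lemma density_zero (f : ℝ → ℝ) (A : Set ℝ) (t : ℕ → ℝ) (ht : Tendsto t atTop atTop)
    (c : ℕ → ℝ) (hc : Tendsto c atTop (𝓝 0))
    (h : ∀ᶠ k in atTop, volume (A ∩ Icc 0 (f (t k))) ≤ ENNReal.ofReal (c k * t k)) :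
    lowerDensity f A = 0 := by
  unfold lowerDensity
  apply le_antisymm _ bot_le
  apply ENNReal.le_of_forall_pos_le_add
  intro δ hδ _
  rw [bot_eq_zero, zero_add]
  apply liminf_le_of_frequently_le'
  have h1 : ∀ᶠ k in atTop, c k < δ := hc.eventually_lt_const (by exact_mod_cast hδ)
  have h2 := ht.eventually_gt_atTop 0
  have h3 : ∀ᶠ k in atTop, volume (A ∩ Icc 0 (f (t k))) / ENNReal.ofReal (t k) ≤ δ := by
    filter_upwards [h, h1, h2] with k e1 e2 e3
    apply ENNReal.div_le_of_le_mul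
    refine e1.trans ?_
    have : (δ : ENNReal) = ENNReal.ofReal (δ : ℝ) := by simp
    rw [this, ← ENNReal.ofReal_mul (by positivity)]
    apply ENNReal.ofReal_le_ofReal
    gcongr
  exact ht.frequently h3.frequently

theorem T_chaotic : IsFChaotic T (fun t => 1 + t) := by
  refine ⟨Set.range (fun c : ℝ => c • yy), ?_, 1, one_pos, ?_⟩
  · intro hcount
    have hyy : yy ≠ 0 := by
      intro h
      have h1 : (yy : ∀ _, ℝ × ℝ) 0 = (0 : ℝ × ℝ) := by rw [h]; rfl
      have h2 : (yy : ∀ _, ℝ × ℝ) 0 = (0, 1 / (((0 : ℕ) : ℝ) + 1)) := rfl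
      rw [h2] at h1
      have h3 := congrArg Prod.snd h1
      norm_num at h3
    have hinj : Function.Injective (fun c : ℝ => c • yy) := smul_left_injective ℝ hyy
    have h1 : (Set.univ : Set ℝ).Countable := by
      rw [← Set.preimage_range (fun c : ℝ => c • yy)]
      exact hcount.preimage hinj
    exact Set.not_countable_univ h1
  · rintro ε hε _ ⟨c, rfl⟩ _ ⟨c', rfl⟩ hne
    have hcc : c ≠ c' := fun h => hne (by simp only [h])
    have hr : 0 < |c - c'| := abs_pos.2 (sub_ne_zero.2 hcc)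
    set r := |c - c'| with hr'
    have hdist : ∀ t, dist (T t (c • yy)) (T t (c' • yy)) = r * ‖T t yy‖ := by
      intro t
      rw [dist_eq_norm, map_smul, map_smul, ← sub_smul, norm_smul, Real.norm_eq_abs]
    simp only [hdist]
    constructor
    · apply density_zero _ _ (fun k => ((k : ℝ) + 1) ^ 3 * a k - 1) ?_
        (fun k => 2 / ((k : ℝ) + 1)) ?_ ?_
      · apply tendsto_atTop_mono (f := fun k : ℕ => (k : ℝ) - 1)
        · intro k
          have h1 := a_ge_k k
          have h2 : (1 : ℝ) ≤ ((k : ℝ) + 1) ^ 3 := one_le_pow₀ (by have := k0 k; linarith)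
          have h3 := a_pos k
          nlinarith
        · exact tendsto_atTop_add_const_right _ _ tendsto_natCast_atTop_atTop
      · have h1 : Tendsto (fun k : ℕ => (k : ℝ) + 1) atTop atTop :=
          tendsto_atTop_add_const_right _ _ tendsto_natCast_atTop_atTop
        exact h1.const_div_atTop 2
      · have h1 : Tendsto (fun k : ℕ => r * (((k : ℝ) + 1) * Real.exp (-1))) atTop atTop := by
          apply Tendsto.const_mul_atTop hr
          apply Tendsto.atTop_mul_const (Real.exp_pos _)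
          exact tendsto_atTop_add_const_right _ _ tendsto_natCast_atTop_atTop
        filter_upwards [h1.eventually_ge_atTop 1] with k hk
        have h0 := k0 k
        have ha := a_pos k
        have ha1 := a_one k
        have hsub : {t | 0 ≤ t ∧ r * ‖T t yy‖ < 1} ∩ Icc 0 (1 + (((k : ℝ) + 1) ^ 3 * a k - 1)) ⊆
            Icc 0 (((k : ℝ) + 1) ^ 2 * a k) := by
          rintro t ⟨⟨ht0, ht1⟩, ht2, ht3⟩
          refine ⟨ht0, ?_⟩
          by_contra hlt
          push Not at hlt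
          have := yy_big k hlt.le (by linarith)
          have h5 : r * (((k : ℝ) + 1) * Real.exp (-1)) ≤ r * ‖T t yy‖ := by gcongr
          linarith
        refine (measure_mono hsub).trans ?_
        rw [Real.volume_Icc]
        apply ENNReal.ofReal_le_ofReal
        rw [sub_zero, div_mul_eq_mul_div, le_div_iff₀ (by positivity)]
        have h6 : (1 : ℝ) ≤ ((k : ℝ) + 1) ^ 3 := one_le_pow₀ (by linarith)
        have h7 : (1 : ℝ) ≤ ((k : ℝ) + 1) ^ 5 := one_le_pow₀ (by linarith)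
        have h8 := a_ge k
        have h9 : 3 ≤ ((k : ℝ) + 1) ^ 3 * a k := by nlinarith
        nlinarith
    · obtain ⟨K, hK⟩ := gap_small yy (ε / r) (by positivity)
      apply density_zero _ _ (fun k => a (k + 1) - 1) ?_
        (fun k => 2 / ((k : ℝ) + 2)) ?_ ?_
      · apply tendsto_atTop_add_const_right
        exact a_tendsto.comp (tendsto_add_atTop_nat 1)
      · have h1 : Tendsto (fun k : ℕ => (k : ℝ) + 2) atTop atTop :=
          tendsto_atTop_add_const_right _ _ tendsto_natCast_atTop_atTop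
        exact h1.const_div_atTop 2
      · filter_upwards [eventually_ge_atTop K] with k hk
        have h0 := k0 k
        have hsub : {t | 0 ≤ t ∧ ε ≤ r * ‖T t yy‖} ∩ Icc 0 (1 + (a (k + 1) - 1)) ⊆
            Icc 0 (b k) := by
          rintro t ⟨⟨ht0, ht1⟩, ht2, ht3⟩
          refine ⟨ht0, ?_⟩
          by_contra hlt
          push Not at hlt
          have h5 := hK k hk t hlt.le (by linarith)
          rw [lt_div_iff₀ hr] at h5
          linarith
        refine (measure_mono hsub).trans ?_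
        rw [Real.volume_Icc]
        apply ENNReal.ofReal_le_ofReal
        rw [sub_zero, div_mul_eq_mul_div, le_div_iff₀ (by positivity)]
        have h5 := b_le_a k
        have h6 := b_pos k
        have h7 := a_le_b k
        have h8 := a_one k
        nlinarith

theorem T_not_f : ¬ IsFChaotic T (fun t => 1 + t ^ 2) := by
  rintro ⟨S, hS, σ, hσ, h⟩
  obtain ⟨x, hx, y, hy, hxy⟩ : ∃ x ∈ S, ∃ y ∈ S, x ≠ y := by
    by_contra hcon
    push Not at hcon
    exact hS (Set.Subsingleton.countable (fun x hx y hy => hcon x hx y hy))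
  have h1 := (h 1 one_pos x hx y hy hxy).1
  set A := {t | 0 ≤ t ∧ dist (T t x) (T t y) < σ} with hA
  obtain ⟨K, hK⟩ := gap_small (x - y) σ hσ
  have hgap : ∀ k, K ≤ k → Icc (b k) (a (k + 1)) ⊆ A := by
    intro k hk t ht
    refine ⟨(b_pos k).le.trans ht.1, ?_⟩
    rw [dist_eq_norm, ← map_sub]
    exact hK k hk t ht.1 ht.2
  have h2 : ENNReal.ofReal (1 / 4) ≤ lowerDensity (fun t => 1 + t ^ 2) A := by
    unfold lowerDensity
    apply le_liminf_of_le
    · isBoundedDefault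
    filter_upwards [eventually_ge_atTop (a (K + 1)), eventually_ge_atTop 1] with t ht ht1
    have hN : a (K + 1) ≤ 1 + t ^ 2 := by nlinarith
    obtain ⟨k, hk1, hk2, hk3⟩ := exists_k (K + 1) (1 + t ^ 2) hN
    obtain ⟨m, rfl⟩ : ∃ m, k = m + 1 := ⟨k - 1, by omega⟩
    have hvol : ENNReal.ofReal (t / 4) ≤ volume (A ∩ Icc 0 (1 + t ^ 2)) := by
      have ha1 := b_lt_a m
      have ha2 := b_pos m
      have ha3 := b_le_sq (m + 1)
      have ha4 := b_pos (m + 1)
      have ha5 := a_pos (m + 1)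
      rcases le_or_gt (1 + t ^ 2) (4 * b (m + 1)) with hcase | hcase
      · have hsub : Icc (b m) (a (m + 1)) ⊆ A ∩ Icc 0 (1 + t ^ 2) := by
          intro s hs
          exact ⟨hgap m (by omega) hs, ha2.le.trans hs.1, hs.2.trans hk2⟩
        refine le_trans ?_ (measure_mono hsub)
        rw [Real.volume_Icc]
        apply ENNReal.ofReal_le_ofReal
        have h5 : t ≤ 2 * a (m + 1) := by
          have : t ^ 2 ≤ (2 * a (m + 1)) ^ 2 := by nlinarith
          exact le_of_sq_le_sq this (by positivity)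
        linarith
      · have hsub : Icc (b (m + 1)) (1 + t ^ 2) ⊆ A ∩ Icc 0 (1 + t ^ 2) := by
          intro s hs
          exact ⟨hgap (m + 1) (by omega) ⟨hs.1, hs.2.trans hk3.le⟩, ha4.le.trans hs.1, hs.2⟩
        refine le_trans ?_ (measure_mono hsub)
        rw [Real.volume_Icc]
        apply ENNReal.ofReal_le_ofReal
        nlinarith
    rw [ENNReal.le_div_iff_mul_le (Or.inl (by simp; linarith)) (Or.inl ENNReal.ofReal_ne_top),
      ← ENNReal.ofReal_mul (by norm_num)]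
    refine le_trans (le_of_eq ?_) hvol
    congr 1
    ring
  rw [h1] at h2
  simp at h2

theorem classF : IsClassF (fun t => 1 + t ^ 2) := by
  refine ⟨?_, ?_, ?_⟩
  · intro s hs t ht hst
    have hs' : 0 ≤ s := hs
    simp only
    nlinarith
  · intro t _
    nlinarith [sq_nonneg t]
  · apply lt_of_lt_of_le (show (0 : ENNReal) < 1 by norm_num)
    apply le_liminf_of_le
    · isBoundedDefault
    filter_upwards [eventually_ge_atTop 1] with t ht
    rw [← ENNReal.ofReal_one]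
    apply ENNReal.ofReal_le_ofReal
    rw [le_div_iff₀ (by linarith)]
    nlinarith

/-- **A distributionally chaotic strongly continuous semigroup with a dense linear subspace of
vectors with null orbits need not be `f`-distributionally chaotic for all `f` in the class `F`.** -/
theorem result :
    ∃ (X : Type) (_ : NormedAddCommGroup X) (_ : NormedSpace ℝ X) (_ : CompleteSpace X)
      (T : ℝ → X →L[ℝ] X), IsC0Semigroup T ∧ IsFChaotic T (fun t => 1 + t) ∧
      (∃ X₀ : Submodule ℝ X, Dense (X₀ : Set X) ∧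
        ∀ x ∈ X₀, Tendsto (fun t => T t x) atTop (𝓝 0)) ∧
      ∃ f : ℝ → ℝ, IsClassF f ∧ ¬ IsFChaotic T f :=
  ⟨XX, inferInstance, inferInstance, inferInstance, T, T_semigroup, T_chaotic,
    ⟨X0, X0_dense, X0_null⟩, _, classF, T_not_f⟩

end Pool.Agent.Results.MP_8cea72_an.NotFChaotic
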